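import Pool.Agent.Q80.KT.Stm

/-! Lemma job KT-SUPER: the supersolution of the exploration recursion. -/

open Finset Filter Topology

noncomputable section

namespace Q83.KT.SUPER

open Pool.Agent.Q80.KT

theorem sum_w (u : ℕ) (p : ℝ) :
    ∑ j ∈ Finset.range (u + 1), (u.choose j : ℝ) * p ^ j * (1 - p) ^ (u - j) = 1 := by
  have h := add_pow p (1 - p) u
  have h2 : (p + (1 - p)) ^ u = 1 := by
    have : p + (1 - p) = 1 := by ring
    rw [this, one_pow]
  rw [h2] at h
  exact (Finset.sum_congr rfl (fun j _ => by ring)).trans h.symm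

theorem sum_wz (u : ℕ) (p z : ℝ) :
    ∑ j ∈ Finset.range (u + 1), (u.choose j : ℝ) * p ^ j * (1 - p) ^ (u - j) * z ^ j =
      (1 - p * (1 - z)) ^ u := by
  have h := add_pow (p * z) (1 - p) u
  have h2 : p * z + (1 - p) = 1 - p * (1 - z) := by ring
  rw [h2] at h
  rw [h]
  exact Finset.sum_congr rfl (fun j _ => by rw [mul_pow]; ring)

theorem sum_wj (u : ℕ) (p : ℝ) :
    ∑ j ∈ Finset.range (u + 1), (u.choose j : ℝ) * p ^ j * (1 - p) ^ (u - j) * (j : ℝ) =
      u * p := by
  cases u with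
  | zero => simp
  | succ k =>
    rw [Finset.sum_range_succ']
    have h : ∀ j ∈ Finset.range (k + 1), ((k + 1).choose (j + 1) : ℝ) * p ^ (j + 1) *
        (1 - p) ^ (k + 1 - (j + 1)) * ((j + 1 : ℕ) : ℝ) =
        ((k + 1 : ℕ) : ℝ) * p * ((k.choose j : ℝ) * p ^ j * (1 - p) ^ (k - j)) := by
      intro j _
      have h1 : (((k + 1) * k.choose j : ℕ) : ℝ) = (((k + 1).choose (j + 1) * (j + 1) : ℕ) : ℝ) := by
        exact_mod_cast Nat.add_one_mul_choose_eq k j
      rw [Nat.cast_mul, Nat.cast_mul] at h1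
      rw [Nat.add_sub_add_right, pow_succ]
      linear_combination (-(p ^ j * p * (1 - p) ^ (k - j))) * h1
    rw [Finset.sum_congr rfl h, ← Finset.mul_sum, sum_w]
    simp

theorem bonf (y : ℝ) (h0 : 0 ≤ y) (h1 : y ≤ 1) (u : ℕ) :
    1 - u * y + u * (u - 1) / 2 * y ^ 2 - u * (u - 1) * (u - 2) / 6 * y ^ 3 ≤ (1 - y) ^ u := by
  induction u with
  | zero => simp
  | succ k ih =>
    have hk : 0 ≤ (k : ℝ) * (k - 1) * (k - 2) := by
      rcases k with _ | _ | k
      · simp
      · simp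
      · push_cast
        have : (0 : ℝ) ≤ k := Nat.cast_nonneg k
        have e : ((k : ℝ) + 1 + 1) * (k + 1 + 1 - 1) * (k + 1 + 1 - 2) = (k + 2) * (k + 1) * k := by ring
        rw [e]
        positivity
    have h2 := mul_le_mul_of_nonneg_right ih (sub_nonneg.2 h1)
    rw [pow_succ]
    refine le_trans ?_ h2
    push_cast
    nlinarith [mul_nonneg hk (pow_nonneg h0 4)]

/-- the profile -/
def g (L s : ℝ) : ℝ := 1 + 2 * L * max (2 * L + 3 - s) 0

/-- the supersolution -/
def HH (N L : ℝ) (n a u : ℕ) : ℝ :=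
  N * a + N ^ 2 * g L ((n - u) / N ^ 2) * (1 - (1 - 2 * L / N) ^ a)

theorem g_anti (L : ℝ) (hL : 0 ≤ L) {s t : ℝ} (h : s ≤ t) : g L t ≤ g L s := by
  unfold g
  have : max (2 * L + 3 - t) 0 ≤ max (2 * L + 3 - s) 0 := max_le_max (by linarith) le_rfl
  nlinarith

theorem one_le_g (L : ℝ) (hL : 0 ≤ L) (s : ℝ) : 1 ≤ g L s := by
  unfold g
  have : 0 ≤ max (2 * L + 3 - s) 0 := le_max_right _ _
  nlinarith

/-- difference in one step -/
theorem step (N L : ℝ) (n a u j : ℕ) (ha : 1 ≤ a) (hj : j ≤ u) :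
    HH N L n a u - HH N L n (a - 1 + j) (u - j) =
      N * (1 - j) + N ^ 2 * g L ((n - u) / N ^ 2) * (1 - 2 * L / N) ^ (a - 1) *
        ((1 - 2 * L / N) ^ j - (1 - 2 * L / N)) +
      N ^ 2 * (g L ((n - u) / N ^ 2) - g L ((n - u) / N ^ 2 + j / N ^ 2)) *
        (1 - (1 - 2 * L / N) ^ (a - 1 + j)) := by
  obtain ⟨b, rfl⟩ : ∃ b, a = b + 1 := ⟨a - 1, by omega⟩
  unfold HH
  have h1 : ((n : ℝ) - ((u - j : ℕ) : ℝ)) / N ^ 2 = (n - u) / N ^ 2 + j / N ^ 2 := by
    rw [Nat.cast_sub hj]; ring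
  rw [h1]
  simp only [Nat.add_sub_cancel]
  push_cast
  rw [pow_succ, pow_add]
  ring

theorem num (L r p m : ℝ) (u : ℕ) (hL1 : 1 ≤ L) (hr0 : 0 < r) (hr1 : 100 * L ^ 2 * r ≤ 1)
    (hLr : 100 * L * r ≤ 1) (hx1 : 0 ≤ p * (2 * L * r)) (hx2 : p * (2 * L * r) ≤ 1) (hm : m = u * p)
    (hp0 : 0 ≤ p) (hpr : p ≤ r / 5000) (hmlow : 1 - 4 * L * r ≤ m) (hmup : m ≤ 1 + (L - 1) * r) :
    L * r ^ 2 ≤ (1 - p * (2 * L * r)) ^ u - (1 - 2 * L * r) := by
  have hb := bonf (p * (2 * L * r)) hx1 hx2 u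
  have e1 : 1 - (u : ℝ) * (p * (2 * L * r)) + u * (u - 1) / 2 * (p * (2 * L * r)) ^ 2 -
      u * (u - 1) * (u - 2) / 6 * (p * (2 * L * r)) ^ 3 =
      1 - m * (2 * L * r) + m * (m - p) / 2 * (2 * L * r) ^ 2 -
        m * (m - p) * (m - 2 * p) / 6 * (2 * L * r) ^ 3 := by
    rw [hm]; ring
  rw [e1] at hb
  have hLr0 : 0 ≤ L * r := by positivity
  have hLr1 : L * r ≤ 1 / 100 := by linarith
  have hrL : r ≤ L * r := by nlinarith only [hL1, hr0]
  have hpL : p ≤ L * r := by linarith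
  have hLr' : (L - 1) * r = L * r - r := by ring
  have hm0 : 0 ≤ m := by linarith
  have hmm : 1 - 9 * (L * r) ≤ m * (m - p) := by
    have a1 : 1 - 4 * (L * r) ≤ m := by linarith
    have a2 : 1 - 5 * (L * r) ≤ m - p := by linarith
    have a3 : (1 - 4 * (L * r)) * (1 - 5 * (L * r)) ≤ m * (m - p) :=
      mul_le_mul a1 a2 (by linarith) hm0
    nlinarith only [a3, hLr0, sq_nonneg (L * r)]
  have hmmm : m * (m - p) * (m - 2 * p) ≤ 3 / 2 := by
    have a1 : m ≤ 1.01 := by linarith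
    have a0 : 0 ≤ m - p := by linarith
    have a2 : m - p ≤ 1.01 := by linarith
    have a3 : m - 2 * p ≤ 1.01 := by linarith
    have a4 : 0 ≤ m - 2 * p := by linarith
    have a5 : m * (m - p) ≤ 1.01 * 1.01 := mul_le_mul a1 a2 a0 (by norm_num)
    have a6 : m * (m - p) * (m - 2 * p) ≤ 1.01 * 1.01 * 1.01 := mul_le_mul a5 a3 a4 (by norm_num)
    refine le_trans a6 (by norm_num)
  have hx : -((L - 1) * r) * (2 * L * r) ≤ (1 - m) * (2 * L * r) :=
    mul_le_mul_of_nonneg_right (by linarith) (by positivity)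
  have t2 : (1 - 9 * (L * r)) / 2 * (2 * L * r) ^ 2 ≤ m * (m - p) / 2 * (2 * L * r) ^ 2 :=
    mul_le_mul_of_nonneg_right (by linarith) (by positivity)
  have t3 : m * (m - p) * (m - 2 * p) / 6 * (2 * L * r) ^ 3 ≤ (3 / 2) / 6 * (2 * L * r) ^ 3 :=
    mul_le_mul_of_nonneg_right (by linarith) (by positivity)
  have e2 : -((L - 1) * r) * (2 * L * r) + (1 - 9 * (L * r)) / 2 * (2 * L * r) ^ 2 -
    (3 / 2) / 6 * (2 * L * r) ^ 3 - L * r ^ 2 = L * r ^ 2 * (1 - 20 * L ^ 2 * r) := by ring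
  have h7 : 0 ≤ L * r ^ 2 * (1 - 20 * L ^ 2 * r) := by
    have h8 : 0 ≤ L ^ 2 * r := by positivity
    have : 0 ≤ 1 - 20 * L ^ 2 * r := by linarith
    positivity
  linarith

theorem key (N L lam p : ℝ) (n a u : ℕ) (hL : L = |lam| + 1) (hN : 100 * L ^ 2 ≤ N)
    (hn : (n : ℝ) = N ^ 3) (hp : p = (1 + lam / N) / N ^ 3) (ha : 1 ≤ a) (hau : a + u ≤ n) :
    1 + ∑ j ∈ Finset.range (u + 1), (u.choose j : ℝ) * p ^ j * (1 - p) ^ (u - j) *
      HH N L n (a - 1 + j) (u - j) ≤ HH N L n a u := by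
  have hL1 : 1 ≤ L := by rw [hL]; linarith [abs_nonneg lam]
  have hL2 : L ≤ L ^ 2 := by nlinarith only [hL1]
  have hN100 : 100 ≤ N := by linarith
  have hNL : 100 * L ≤ N := by linarith
  have hN0 : 0 < N := by linarith
  set r : ℝ := 1 / N with hr
  have hr0 : 0 < r := by positivity
  have hrN : r * N = 1 := by rw [hr]; field_simp
  have hr1 : 100 * L ^ 2 * r ≤ 1 := by
    rw [← hrN, mul_comm r N]; exact mul_le_mul_of_nonneg_right hN hr0.le
  have hLr : 100 * L * r ≤ 1 := by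
    rw [← hrN, mul_comm r N]; exact mul_le_mul_of_nonneg_right hNL hr0.le
  have hr100 : 100 * r ≤ 1 := by
    rw [← hrN, mul_comm r N]; exact mul_le_mul_of_nonneg_right hN100 hr0.le
  have hlam1 : lam ≤ L - 1 := by rw [hL]; linarith [le_abs_self lam]
  have hlam2 : -(L - 1) ≤ lam := by rw [hL]; linarith [neg_abs_le lam]
  have hp' : p = (1 + lam * r) * r ^ 3 := by
    rw [hp, hr]; field_simp
  have hlr1 : lam * r ≤ (L - 1) * r := mul_le_mul_of_nonneg_right hlam1 hr0.le
  have hlr2 : -(L - 1) * r ≤ lam * r := mul_le_mul_of_nonneg_right hlam2 hr0.le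
  have hA1 : 1 / 2 ≤ 1 + lam * r := by linarith
  have hA2 : 1 + lam * r ≤ 2 := by linarith
  have hr3 : 0 < r ^ 3 := by positivity
  have hp0 : 0 ≤ p := by rw [hp']; exact mul_nonneg (by linarith) hr3.le
  have hp2 : p ≤ 2 * r ^ 3 := by rw [hp']; exact mul_le_mul_of_nonneg_right hA2 hr3.le
  have hrr : r ^ 3 ≤ r / 10000 := by
    have h1 : r * r ≤ 1 / 100 * (1 / 100) :=
      mul_le_mul (by linarith) (by linarith) hr0.le (by norm_num)
    have h2 : r * r * r ≤ 1 / 100 * (1 / 100) * r := mul_le_mul_of_nonneg_right h1 hr0.le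
    have h3 : r ^ 3 = r * r * r := by ring
    rw [h3]
    linarith
  have hpr : p ≤ r / 5000 := by linarith
  have hp1 : p ≤ 1 := by linarith
  set z : ℝ := 1 - 2 * L / N with hz
  have hzr : z = 1 - 2 * L * r := by rw [hz, hr]; ring
  have hLr0 : 0 < L * r := by positivity
  have hz0 : 0 ≤ z := by rw [hzr]; linarith
  have hz1 : z ≤ 1 := by rw [hzr]; linarith
  set s : ℝ := (n - u) / N ^ 2 with hs
  have hun : (u : ℝ) ≤ n := by exact_mod_cast (by omega : u ≤ n)
  have hs0 : 0 ≤ s := by rw [hs]; exact div_nonneg (by linarith) (by positivity)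
  set m : ℝ := u * p with hm
  have hus : (u : ℝ) * r ^ 3 = 1 - s * r := by
    have : (u : ℝ) = N ^ 3 - s * N ^ 2 := by
      rw [hs, hn]; field_simp; ring
    rw [this, hr]; field_simp
  have hmv : m = (1 - s * r) * (1 + lam * r) := by
    rw [hm, hp', ← hus]; ring
  have hm0 : 0 ≤ m := by rw [hm]; positivity
  set w : ℕ → ℝ := fun j => (u.choose j : ℝ) * p ^ j * (1 - p) ^ (u - j) with hw
  have hw0 : ∀ j, 0 ≤ w j := fun j => by
    rw [hw]
    have : 0 ≤ 1 - p := by linarith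
    positivity
  have hW1 : ∑ j ∈ Finset.range (u + 1), w j = 1 := sum_w u p
  have hWj : ∑ j ∈ Finset.range (u + 1), w j * (j : ℝ) = m := sum_wj u p
  have hWz : ∑ j ∈ Finset.range (u + 1), w j * z ^ j = (1 - p * (1 - z)) ^ u := sum_wz u p z
  set G : ℝ := g L s with hG
  have hG1 : 1 ≤ G := one_le_g L (by linarith) s
  set Z : ℝ := z ^ (a - 1) with hZ
  have hZ0 : 0 ≤ Z := pow_nonneg hz0 _
  have hza : z ^ a = Z * z := by
    rw [hZ, ← pow_succ]
    congr 1
    omega
  -- the reduction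
  have main : ∀ T : ℕ → ℝ, (∀ j ∈ Finset.range (u + 1), w j * T j ≤ w j *
      (N ^ 2 * (g L s - g L (s + j / N ^ 2)) * (1 - z ^ (a - 1 + j)))) →
      1 ≤ N * (1 - m) + N ^ 2 * G * Z * ((1 - p * (1 - z)) ^ u - z) +
        ∑ j ∈ Finset.range (u + 1), w j * T j →
      1 + ∑ j ∈ Finset.range (u + 1), w j * HH N L n (a - 1 + j) (u - j) ≤ HH N L n a u := by
    intro T hT h1
    have e1 : HH N L n a u = ∑ j ∈ Finset.range (u + 1), w j * HH N L n a u := by
      rw [← Finset.sum_mul, hW1, one_mul]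
    have e2 : HH N L n a u - ∑ j ∈ Finset.range (u + 1), w j * HH N L n (a - 1 + j) (u - j) =
        ∑ j ∈ Finset.range (u + 1), w j * (HH N L n a u - HH N L n (a - 1 + j) (u - j)) := by
      conv_lhs => rw [e1]
      rw [← Finset.sum_sub_distrib]
      exact Finset.sum_congr rfl (fun j _ => by ring)
    have e3 : ∑ j ∈ Finset.range (u + 1), w j * (HH N L n a u - HH N L n (a - 1 + j) (u - j)) =
        ∑ j ∈ Finset.range (u + 1), (N * (w j - w j * (j : ℝ)) + N ^ 2 * G * Z * (w j * z ^ j - z * w j) +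
          w j * (N ^ 2 * (g L s - g L (s + j / N ^ 2)) * (1 - z ^ (a - 1 + j)))) := by
      refine Finset.sum_congr rfl (fun j hj => ?_)
      rw [step N L n a u j ha (by simpa [Nat.lt_succ_iff] using hj)]
      ring
    have e4 : N * (1 - m) + N ^ 2 * G * Z * ((1 - p * (1 - z)) ^ u - z) +
        ∑ j ∈ Finset.range (u + 1), w j * T j ≤
        ∑ j ∈ Finset.range (u + 1), (N * (w j - w j * (j : ℝ)) + N ^ 2 * G * Z * (w j * z ^ j - z * w j) +
          w j * (N ^ 2 * (g L s - g L (s + j / N ^ 2)) * (1 - z ^ (a - 1 + j)))) := by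
      rw [Finset.sum_add_distrib, Finset.sum_add_distrib, ← Finset.mul_sum, ← Finset.mul_sum,
        Finset.sum_sub_distrib, Finset.sum_sub_distrib, hW1, hWj, hWz, ← Finset.mul_sum, hW1, mul_one]
      exact add_le_add le_rfl (Finset.sum_le_sum hT)
    rw [← e3, ← e2] at e4
    linarith
  have hTnn : ∀ j : ℕ, 0 ≤ N ^ 2 * (g L s - g L (s + j / N ^ 2)) * (1 - z ^ (a - 1 + j)) := by
    intro j
    have h1 : 0 ≤ g L s - g L (s + j / N ^ 2) :=
      sub_nonneg.2 (g_anti L (by linarith) (le_add_of_nonneg_right (by positivity)))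
    have h2 : 0 ≤ 1 - z ^ (a - 1 + j) := sub_nonneg.2 (pow_le_one₀ hz0 hz1)
    positivity
  have hNm : N * (1 - m) = s - lam + lam * r * s := by
    rw [hmv]
    have : N * (1 - (1 - s * r) * (1 + lam * r)) = (r * N) * (s - lam + lam * r * s) := by ring
    rw [this, hrN, one_mul]
  have hx1 : 0 ≤ p * (1 - z) := mul_nonneg hp0 (by linarith)
  have hx2 : p * (1 - z) ≤ 1 := mul_le_one₀ hp1 (by linarith) (by linarith)
  rcases le_or_gt (2 * L + 2) s with hcase | hcase
  · -- first case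
    have h1 : 2 ≤ N * (1 - m) := by
      rw [hNm]
      have h2 := mul_nonneg hs0 (sub_nonneg.2 hA1)
      linarith
    have hm1 : m ≤ 1 := by
      by_contra hcon
      push Not at hcon
      have := mul_pos hN0 (sub_pos.2 hcon)
      linarith
    refine main (fun _ => 0) (fun j _ => ?_) ?_
    · rw [mul_zero]; exact mul_nonneg (hw0 j) (hTnn j)
    · have h2 : z ≤ (1 - p * (1 - z)) ^ u := by
        have h3 := one_add_mul_le_pow (a := -(p * (1 - z))) (by linarith) u
        have h4 : (1 : ℝ) + -(p * (1 - z)) = 1 - p * (1 - z) := by ring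
        rw [h4] at h3
        refine le_trans ?_ h3
        have h5 : 1 + (u : ℝ) * -(p * (1 - z)) = 1 - m * (1 - z) := by rw [hm]; ring
        rw [h5]
        have h6 := mul_nonneg (sub_nonneg.2 hm1) (sub_nonneg.2 hz1)
        linarith
      have h3 : 0 ≤ N ^ 2 * G * Z * ((1 - p * (1 - z)) ^ u - z) := by
        have : 0 ≤ G := by linarith
        have h4 := sub_nonneg.2 h2
        positivity
      simp only [mul_zero, Finset.sum_const_zero]
      linarith
  · -- second case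
    have hsr : s * r ≤ (2 * L + 2) * r := mul_le_mul_of_nonneg_right hcase.le hr0.le
    have hsr0 : 0 ≤ s * r := mul_nonneg hs0 hr0.le
    have hA0 : 0 ≤ 1 + lam * r := by linarith
    have hrL : r ≤ L * r := by linarith [mul_nonneg (sub_nonneg.2 hL1) hr0.le]
    have hmlow : 1 - 4 * L * r ≤ m := by
      rw [hmv]
      have b1 : 0 ≤ 1 - s * r := by linarith
      have b2 : (1 - s * r) * (1 - (L - 1) * r) ≤ (1 - s * r) * (1 + lam * r) :=
        mul_le_mul_of_nonneg_left (by linarith) b1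
      have b3 : 0 ≤ s * r * ((L - 1) * r) := mul_nonneg hsr0 (mul_nonneg (by linarith) hr0.le)
      linarith
    have hmup : m ≤ 1 + (L - 1) * r := by
      rw [hmv]
      linarith [mul_nonneg hsr0 hA0]
    have hNmlow : -(L - 1) ≤ N * (1 - m) := by
      rw [hNm]
      linarith [mul_nonneg hs0 hA0]
    have hm96 : 0.96 ≤ m := by linarith
    have hw00 : w 0 ≤ 1 / 2 := by
      have h1 : w 0 = (1 - p) ^ u := by simp [hw]
      rw [h1]
      have h2 : (1 - p) ^ u ≤ Real.exp (-p) ^ u :=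
        pow_le_pow_left₀ (by linarith) (Real.one_sub_le_exp_neg p) u
      have h3 : Real.exp (-p) ^ u = Real.exp (-m) := by
        rw [← Real.exp_nat_mul, hm]; congr 1; ring
      have h4 := Real.quadratic_le_exp_of_nonneg hm0
      have h5 : 2 ≤ Real.exp m := by
        have h6 : 0.96 * 0.96 ≤ m * m := mul_le_mul hm96 hm96 (by norm_num) hm0
        linarith
      rw [h3] at h2
      refine le_trans h2 ?_
      rw [Real.exp_neg, ← one_div]
      exact one_div_le_one_div_of_le (by norm_num) h5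
    refine main (fun j => if j = 0 then 0 else 2 * L * (1 - z ^ a)) (fun j _ => ?_) ?_
    · refine mul_le_mul_of_nonneg_left ?_ (hw0 j)
      by_cases hj : j = 0
      · simp only [hj, if_true]
        exact_mod_cast hTnn 0
      · simp only [hj, if_false]
        have hj1 : (1 : ℝ) ≤ j := by exact_mod_cast Nat.one_le_iff_ne_zero.2 hj
        have h1 : 1 - z ^ a ≤ 1 - z ^ (a - 1 + j) := by
          have := pow_le_pow_of_le_one hz0 hz1 (show a ≤ a - 1 + j by omega)
          linarith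
        have h2 : 2 * L / N ^ 2 ≤ g L s - g L (s + j / N ^ 2) := by
          have h3 : g L (s + j / N ^ 2) ≤ g L (s + 1 / N ^ 2) :=
            g_anti L (by linarith) (by gcongr)
          have hN2 : 1 / N ^ 2 ≤ 1 := by
            rw [div_le_one (by positivity)]
            nlinarith only [hN100]
          have h4 : g L (s + 1 / N ^ 2) = g L s - 2 * L / N ^ 2 := by
            unfold g
            rw [max_eq_left (by linarith), max_eq_left (by linarith)]
            ring
          linarith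
        have h3 : 2 * L ≤ N ^ 2 * (g L s - g L (s + j / N ^ 2)) := by
          have := mul_le_mul_of_nonneg_left h2 (show 0 ≤ N ^ 2 by positivity)
          have e : N ^ 2 * (2 * L / N ^ 2) = 2 * L := by field_simp
          rwa [e] at this
        have h4 : 0 ≤ 1 - z ^ a := sub_nonneg.2 (pow_le_one₀ hz0 hz1)
        exact mul_le_mul h3 h1 h4 (le_trans (by positivity) h3)
    · have hsum : ∑ j ∈ Finset.range (u + 1), w j * (if j = 0 then 0 else 2 * L * (1 - z ^ a)) =
          2 * L * (1 - z ^ a) * (1 - w 0) := by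
        have e1 : ∀ j ∈ Finset.range (u + 1), w j * (if j = 0 then 0 else 2 * L * (1 - z ^ a)) =
            2 * L * (1 - z ^ a) * w j - (if j = 0 then 2 * L * (1 - z ^ a) * w 0 else 0) := by
          intro j _
          by_cases hj : j = 0
          · simp [hj]
          · simp only [hj, if_false]; ring
        rw [Finset.sum_congr rfl e1, Finset.sum_sub_distrib, ← Finset.mul_sum, hW1,
          Finset.sum_ite_eq' (Finset.range (u + 1)) 0]
        simp
        ring
      rw [hsum]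
      have h4 : 0 ≤ 1 - z ^ a := sub_nonneg.2 (pow_le_one₀ hz0 hz1)
      have h5 : L * (1 - z ^ a) ≤ 2 * L * (1 - z ^ a) * (1 - w 0) := by
        have h6 : 0 ≤ L * (1 - z ^ a) := mul_nonneg (by linarith) h4
        have h7 := mul_nonneg h6 (sub_nonneg.2 hw00)
        linarith
      have hb2 : L * r ^ 2 ≤ (1 - p * (1 - z)) ^ u - z := by
        have ex : 1 - z = 2 * L * r := by rw [hzr]; ring
        rw [ex, hzr]
        exact num L r p m u hL1 hr0 hr1 hLr (by rw [← ex]; exact hx1) (by rw [← ex]; exact hx2) hm hp0 hpr hmlow hmup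
      have h6 : L * Z ≤ N ^ 2 * G * Z * ((1 - p * (1 - z)) ^ u - z) := by
        have e1 : N ^ 2 * (L * r ^ 2) = L := by
          have : N ^ 2 * (L * r ^ 2) = (r * N) ^ 2 * L := by ring
          rw [this, hrN]; ring
        have e2 : L ≤ N ^ 2 * ((1 - p * (1 - z)) ^ u - z) := by
          calc L = N ^ 2 * (L * r ^ 2) := e1.symm
            _ ≤ _ := mul_le_mul_of_nonneg_left hb2 (by positivity)
        have e3 : L ≤ G * (N ^ 2 * ((1 - p * (1 - z)) ^ u - z)) := by
          have e4 : 0 ≤ (G - 1) * (N ^ 2 * ((1 - p * (1 - z)) ^ u - z)) :=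
            mul_nonneg (by linarith) (by linarith)
          linarith
        calc L * Z ≤ G * (N ^ 2 * ((1 - p * (1 - z)) ^ u - z)) * Z :=
              mul_le_mul_of_nonneg_right e3 hZ0
          _ = _ := by ring
      have h7 : L * z ^ a ≤ L * Z := by
        rw [hza]
        exact mul_le_mul_of_nonneg_left (mul_le_of_le_one_right hZ0 hz1) (by linarith)
      linarith

theorem t_SUPER : S_SUPER := by
  intro lam
  set L : ℝ := |lam| + 1 with hL
  have hL1 : 1 ≤ L := by rw [hL]; linarith [abs_nonneg lam]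
  refine ⟨1 + 2 * L * (1 + 2 * L * (2 * L + 3)), by positivity, ?_⟩
  have ht : Tendsto (fun n : ℕ => (n : ℝ) ^ ((1 : ℝ) / 3)) atTop atTop :=
    (tendsto_rpow_atTop (by norm_num)).comp tendsto_natCast_atTop_atTop
  filter_upwards [ht.eventually_ge_atTop (100 * L ^ 2), Filter.eventually_ge_atTop 1] with n hN hn1
  set N : ℝ := (n : ℝ) ^ ((1 : ℝ) / 3) with hNdef
  have hn0 : (0 : ℝ) ≤ n := Nat.cast_nonneg n
  have hN3 : (n : ℝ) = N ^ 3 := by
    rw [hNdef, ← Real.rpow_natCast, ← Real.rpow_mul hn0]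
    norm_num
  have hN4 : (n : ℝ) ^ ((4 : ℝ) / 3) = N ^ 4 := by
    rw [hNdef, ← Real.rpow_natCast, ← Real.rpow_mul hn0]
    norm_num
  have hN100 : 100 ≤ N := by nlinarith
  have hN0 : 0 < N := by linarith
  have hp : pN lam n = (1 + lam / N) / N ^ 3 := by
    unfold pN
    rw [hN4, hN3]
    field_simp
  refine ⟨HH N L n, fun u => by simp [HH], fun a u ha hau => ?_, ?_⟩
  · exact key N L lam (pN lam n) n a u hL hN hN3 hp ha hau
  · unfold HH
    have h1 : ((n : ℝ) - ((n - 1 : ℕ) : ℝ)) / N ^ 2 = 1 / N ^ 2 := by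
      rw [Nat.cast_sub hn1]; push_cast; ring
    rw [h1]
    have h2 : g L (1 / N ^ 2) ≤ 1 + 2 * L * (2 * L + 3) := by
      unfold g
      have h3 : max (2 * L + 3 - 1 / N ^ 2) 0 ≤ 2 * L + 3 :=
        max_le (by have : 0 < 1 / N ^ 2 := by positivity
                   linarith) (by positivity)
      nlinarith
    have h3 : N * ((1 : ℕ) : ℝ) + N ^ 2 * g L (1 / N ^ 2) * (1 - (1 - 2 * L / N) ^ 1) =
        N * (1 + 2 * L * g L (1 / N ^ 2)) := by
      field_simp
      push_cast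
      ring
    rw [h3, mul_comm N]
    refine mul_le_mul_of_nonneg_right ?_ hN0.le
    nlinarith

end Q83.KT.SUPER
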